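import Pool.Agent.W560.HP.Stm

/-!
# A discrete valuation ring with a given residue field (task HP-SPZ)
-/

set_option autoImplicit false

namespace Pool.Agent.W32.HP

open Polynomial

section

variable (k Q : Type) [Field k] [Field Q] [Algebra k Q]

/-- the fraction field of the power series -/
abbrev MM : Type := FractionRing (PowerSeries Q)

/-- the power series inside -/
noncomputable def inc : PowerSeries Q →ₐ[k] MM Q := IsScalarTower.toAlgHom k (PowerSeries Q) (MM Q)

theorem inc_apply (r : PowerSeries Q) : inc k Q r = algebraMap (PowerSeries Q) (MM Q) r := rfl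

theorem inc_inj : Function.Injective (inc k Q) := IsFractionRing.injective (PowerSeries Q) (MM Q)

/-- the constant coefficient -/
noncomputable def cc : PowerSeries Q →ₐ[k] Q :=
  { (PowerSeries.constantCoeff : PowerSeries Q →+* Q) with
    commutes' := fun r => by
      show PowerSeries.constantCoeff (algebraMap k (PowerSeries Q) r) = algebraMap k Q r
      rw [PowerSeries.algebraMap_apply]
      simp }

theorem cc_apply (r : PowerSeries Q) : cc k Q r = PowerSeries.constantCoeff r := rfl

/-- the ring -/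
noncomputable def OO : Subalgebra k (MM Q) := (inc k Q).range

/-- the equivalence -/
noncomputable def eq : PowerSeries Q ≃ₐ[k] OO k Q := AlgEquiv.ofInjective (inc k Q) (inc_inj k Q)

theorem eq_coe (r : PowerSeries Q) : ((eq k Q r : OO k Q) : MM Q) = inc k Q r := rfl

theorem eq_symm (x : OO k Q) : inc k Q ((eq k Q).symm x) = (x : MM Q) := by
  rw [← eq_coe, AlgEquiv.apply_symm_apply]

theorem eq_symm_mk (r : PowerSeries Q) (h : inc k Q r ∈ OO k Q) :
    (eq k Q).symm ⟨inc k Q r, h⟩ = r := by
  apply inc_inj k Q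
  rw [eq_symm]

/-- the residue map -/
noncomputable def res : OO k Q →ₐ[k] Q := (cc k Q).comp ((eq k Q).symm : OO k Q →ₐ[k] PowerSeries Q)

theorem res_apply (x : OO k Q) : res k Q x = PowerSeries.constantCoeff ((eq k Q).symm x) := rfl

theorem mem_OO (r : PowerSeries Q) : inc k Q r ∈ OO k Q := ⟨r, rfl⟩

theorem res_mk (r : PowerSeries Q) :
    res k Q ⟨inc k Q r, mem_OO k Q r⟩ = PowerSeries.constantCoeff r := by
  rw [res_apply, eq_symm_mk]

/-- the constants as power series -/
noncomputable def cst : Q →ₐ[k] PowerSeries Q :=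
  { (PowerSeries.C : Q →+* PowerSeries Q) with
    commutes' := fun r => by
      show PowerSeries.C (algebraMap k Q r) = algebraMap k (PowerSeries Q) r
      rw [PowerSeries.algebraMap_apply] }

theorem cst_apply (q : Q) : cst k Q q = PowerSeries.C q := rfl

theorem isInt {x : MM Q} (h : IsIntegral (OO k Q) x) : x ∈ OO k Q := by
  have h2 : IsIntegral (PowerSeries Q) x := by
    obtain ⟨p, hp, hx⟩ := h
    refine ⟨p.map ((eq k Q).symm : OO k Q →+* PowerSeries Q), hp.map _, ?_⟩
    rw [Polynomial.eval₂_map]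
    have e : (algebraMap (PowerSeries Q) (MM Q)).comp
        ((eq k Q).symm : OO k Q →+* PowerSeries Q) = algebraMap (OO k Q) (MM Q) := by
      ext y
      exact eq_symm k Q y
    rw [e]
    exact hx
  obtain ⟨y, hy⟩ := IsIntegrallyClosed.isIntegral_iff.1 h2
  exact ⟨y, hy⟩

end

theorem spz : W560.HP.S_SPZ := by
  intro k Q _ _ _
  refine ⟨MM Q, inferInstance, inferInstance, (inc k Q).comp (cst k Q), inc k Q PowerSeries.X,
    OO k Q, res k Q, ?_, ?_, ?_, fun x hx => isInt k Q hx, ?_⟩
  · intro q
    refine ⟨mem_OO k Q (PowerSeries.C q), ?_⟩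
    exact (res_mk k Q (PowerSeries.C q)).trans (by simp)
  · refine ⟨mem_OO k Q PowerSeries.X, ?_⟩
    exact (res_mk k Q PowerSeries.X).trans (by simp)
  · intro x hx
    rw [res_apply] at hx
    have hu : IsUnit ((eq k Q).symm x) := PowerSeries.isUnit_iff_constantCoeff.2 (isUnit_iff_ne_zero.2 hx)
    obtain ⟨u, hu⟩ := hu
    refine ⟨((u⁻¹ : (PowerSeries Q)ˣ) : PowerSeries Q), ?_⟩
    rw [← eq_symm k Q x, ← hu]
    apply eq_inv_of_mul_eq_one_left
    show inc k Q _ * inc k Q _ = 1
    rw [← map_mul, Units.inv_mul, map_one]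
  · intro p hp h0
    rw [Polynomial.eval_map] at h0
    have h1 : Polynomial.eval₂ (((inc k Q).comp (cst k Q) : Q →ₐ[k] MM Q) : Q →+* MM Q)
        (inc k Q PowerSeries.X) p = inc k Q (Polynomial.eval₂ PowerSeries.C PowerSeries.X p) := by
      rw [← AlgHom.coe_toRingHom (inc k Q), Polynomial.hom_eval₂]
      rfl
    rw [h1, Polynomial.eval₂_C_X_eq_coe] at h0
    have h2 : (p : PowerSeries Q) = 0 := by
      apply inc_inj k Q
      rw [h0, map_zero]
    rw [Polynomial.coe_eq_zero_iff] at h2
    exact hp h2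

end Pool.Agent.W32.HP
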